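import Pool.Agent.W717.UR.Stm
import Pool.Agent.Results.MP_3dc43d_an.SeparableDenseLineable

set_option autoImplicit false

namespace Pool.Agent.W493.UR

open Filter Topology Pool.Agent.W717.UR

theorem dens : S_DENS := by
  intro X _ _ _ T hD
  have key : (Submodule.span ℝ {x : X | URVec T x} : Set X) ⊆ closure {x : X | URVec T x} := by
    intro v hv
    obtain ⟨F, hF, hvF⟩ := Submodule.mem_span_finite_of_mem_span hv
    obtain ⟨M, hM1, _, hM3⟩ := Pool.Agent.Results.MP_3dc43d_an.SeparableDenseLineable.result T
      (F : Set X) F.finite_toSet.countable.isSeparable (fun x hx => subset_closure (hF hx))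
    have h1 : Submodule.span ℝ (F : Set X) ≤ M.topologicalClosure := by
      rw [Submodule.span_le]
      intro x hx
      exact hM1 hx
    have h2 : v ∈ closure (M : Set X) := h1 hvF
    have h3 : (M : Set X) ⊆ {x : X | URVec T x} := by
      intro x hx U hU
      obtain ⟨N, hN⟩ := hM3 1 (fun _ => x) (fun _ => hx) {z | z 0 ∈ U} (by
        have : Continuous (fun z : Fin 1 → X => z 0) := continuous_apply 0
        exact this.continuousAt.preimage_mem_nhds hU)
      refine ⟨N, fun m => ?_⟩
      obtain ⟨n, h4, h5, h6, h7⟩ := hN m
      exact ⟨n, h4, h5, h6, h7⟩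
    exact closure_mono h3 h2
  intro x
  have h := closure_minimal key isClosed_closure
  exact h (hD x)

end Pool.Agent.W493.UR
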