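import Pool.Agent.W717.UR.Stm

set_option autoImplicit false

namespace Pool.Agent.W493.UR

open Filter Topology Pool.Agent.W717.UR

theorem rad_ge {y : ℤ → ℤ} {x : ℕ → ℤ} {R : ℕ → ℕ} (hR : Rad y x R) (i : ℕ) : i ≤ R i := by
  induction i with
  | zero => exact Nat.zero_le _
  | succ i ih =>
    have := hR.growth i
    omega

theorem adm : S_ADM := by
  intro y x R hR l g hg k hlk
  refine ⟨hg.1, ?_⟩
  intro m n hmn
  apply hg.2
  intro i hi
  have h1 : |(m : ℤ) + i| ≤ (R (m + k) : ℤ) := by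
    have h2 := rad_ge hR (m + k)
    have h3 : |(m : ℤ) + i| ≤ |(m : ℤ)| + |i| := abs_add_le _ _
    rw [abs_of_nonneg (Int.natCast_nonneg m)] at h3
    have h4 : (l : ℤ) ≤ k := by exact_mod_cast hlk
    have h5 : ((m + k : ℕ) : ℤ) ≤ (R (m + k) : ℤ) := by exact_mod_cast h2
    push_cast at h5
    linarith
  have h6 := hmn ((m : ℤ) + i) h1
  have h7 : (n : ℤ) - m + (m + i) = n + i := by ring
  rw [h7] at h6
  exact h6

theorem na : S_NA := by
  intro y x R hR hA L hL hna
  unfold NoAtom at hna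
  push Not at hna
  obtain ⟨η, hη, hna⟩ := hna
  have hpos : ∀ l : ℕ, ∃ (m0 : ℤ) (l' : ℕ) (g : ℤ → ℝ), Cyl y l' g ∧
      (∀ m : ℤ, g m ≠ 0 → ∀ i : ℕ, i < l → y (m + i) = y (m0 + i)) ∧ η < L g := by
    intro l
    obtain ⟨m0, l', g, hg1, hg2, hg3⟩ := hna l
    rcases le_total 0 (L g) with h | h
    · rw [abs_of_nonneg h] at hg3
      exact ⟨m0, l', g, hg1, hg2, hg3⟩
    · rw [abs_of_nonpos h] at hg3
      refine ⟨m0, l', fun n => (-1) * g n, ?_, ?_, ?_⟩
      · refine ⟨fun n => ?_, fun n n' hnn => ?_⟩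
        · rw [abs_mul, abs_neg, abs_one, one_mul]; exact hg1.1 n
        · show (-1) * g n = (-1) * g n'
          rw [hg1.2 n n' hnn]
      · intro m hm
        apply hg2 m
        intro h0
        apply hm
        show (-1) * g m = 0
        rw [h0, mul_zero]
      · have hgood : Good (fun i => Ret y (R i)) g := by
          refine ⟨l', 1, one_pos, ?_⟩
          have := adm y x R hR l' g hg1 l' le_rfl
          simpa using this
        rw [hL.smul (-1) g hgood]
        linarith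
  choose m0 l' g hg1 hg2 hg3 using hpos
  let U : Ultrafilter ℕ := hyperfilter ℕ
  have hz : ∀ i : ℕ, ∃ v : ℤ, (v = -1 ∨ v = 0 ∨ v = 1) ∧ ∀ᶠ l in (U : Filter ℕ), y (m0 l + i) = v := by
    intro i
    have h1 : ∀ᶠ l in (U : Filter ℕ), y (m0 l + i) = -1 ∨ (y (m0 l + i) = 0 ∨ y (m0 l + i) = 1) :=
      Eventually.of_forall fun l => hA _
    rw [Ultrafilter.eventually_or, Ultrafilter.eventually_or] at h1
    rcases h1 with h1 | h1 | h1
    · exact ⟨-1, Or.inl rfl, h1⟩
    · exact ⟨0, Or.inr (Or.inl rfl), h1⟩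
    · exact ⟨1, Or.inr (Or.inr rfl), h1⟩
  choose z hz1 hz2 using hz
  refine ⟨η, z, hη, hz1, ?_⟩
  intro l0 a' ha'
  have h1 : ∀ᶠ l in (U : Filter ℕ), ∀ i ∈ Finset.range l0, y (m0 l + i) = z i := by
    rw [Filter.eventually_all_finset]
    intro i _
    exact hz2 i
  have h2 : ∀ᶠ l in (U : Filter ℕ), l0 ≤ l := by
    have : (U : Filter ℕ) ≤ atTop := by
      have := hyperfilter_le_cofinite (α := ℕ)
      rw [Nat.cofinite_eq_atTop] at this
      exact this
    exact this (eventually_ge_atTop l0)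
  obtain ⟨l, h3, h4⟩ := (h1.and h2).exists
  refine ⟨l' l, g l, hg1 l, ?_, ?_⟩
  · intro m hm i hi
    rw [hg2 l m hm i (lt_of_lt_of_le hi h4)]
    exact h3 i (Finset.mem_range.mpr hi)
  · exact le_trans ha'.le (hg3 l).le

end Pool.Agent.W493.UR
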